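import Mathlib
import Pool.Agent.Q177.TukB

/-!
# MP_f56686_gt: an `ω`-narrow uniform space `(X, 𝒰)` with `𝒩ₑ(F(X, 𝒰))` not Tukey equivalent to `𝒰^ω`
-/

set_option autoImplicit false

universe u

namespace Pool.Agent.Results.MP_f56686_gt.NotTukey

open Set Topology

/-- `(X, 𝒰)` is `ω`-narrow: for every entourage `V` there is a countable `A` with
`X = ⋃ a ∈ A, B(a, V)`, where `B(a, V) = {y | (a, y) ∈ V}`. -/
def OmegaNarrow (X : Type u) [UniformSpace X] : Prop :=
  ∀ V ∈ uniformity X, ∃ A : Set X, A.Countable ∧ ∀ x, ∃ a ∈ A, (a, x) ∈ V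

/-- The canonical map `X → F(X)` is uniformly continuous for the two-sided uniformity of the group
topology `t` on the free group on `X`. -/
def CanonicalUC (X : Type u) [UniformSpace X] (t : GroupTopology (FreeGroup X)) : Prop :=
  ∀ V ∈ @nhds (FreeGroup X) t.toTopologicalSpace 1,
    {p : X × X | (FreeGroup.of p.1)⁻¹ * FreeGroup.of p.2 ∈ V ∧
      FreeGroup.of p.1 * (FreeGroup.of p.2)⁻¹ ∈ V} ∈ uniformity X

/-- `t` is the topology of the free topological group `F(X, 𝒰)`: the finest group topology on the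
free group for which the canonical map is uniformly continuous (`t ≤ s` means that `t` is finer
than `s`). -/
def IsFreeTopology (X : Type u) [UniformSpace X] (t : GroupTopology (FreeGroup X)) : Prop :=
  CanonicalUC X t ∧ ∀ s : GroupTopology (FreeGroup X), CanonicalUC X s → t ≤ s

/-- The neighbourhoods of the identity of the free group with the group topology `t`, ordered by
reverse inclusion. -/
abbrev NbhdId (X : Type u) (t : GroupTopology (FreeGroup X)) : Type u :=
  {V : Set (FreeGroup X) // V ∈ @nhds (FreeGroup X) t.toTopologicalSpace 1}ᵒᵈ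

/-- The entourages of `(X, 𝒰)`, ordered by reverse inclusion. -/
abbrev Entourages (X : Type u) [UniformSpace X] : Type u :=
  {V : Set (X × X) // V ∈ uniformity X}ᵒᵈ

/-- Tukey order `P ≤_T Q`: some map `Q → P` sends cofinal subsets to cofinal subsets. -/
def TukeyLE (P Q : Type*) [Preorder P] [Preorder Q] : Prop :=
  ∃ φ : Q → P, ∀ C : Set Q, (∀ q, ∃ c ∈ C, q ≤ c) → ∀ p, ∃ c ∈ φ '' C, p ≤ c

/-- Tukey equivalence `P =_T Q`. -/
def TukeyEquiv (P Q : Type*) [Preorder P] [Preorder Q] : Prop :=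
  TukeyLE P Q ∧ TukeyLE Q P

/-- For every uncountable `I` there is a separated `ω`-narrow uniform structure on the set
`I ⊔ ℕ ⊔ {∞}` such that, for the topology `t` of `F(X, 𝒰)`, the neighbourhoods of the identity are
not Tukey equivalent to `𝒰^ω`; more precisely `𝒩ₑ(F(X, 𝒰)) ≤_T 𝒰^ω` fails. -/
theorem result (I : Type u) [Uncountable I] :
    ∃ 𝒰 : UniformSpace (Option (I ⊕ ℕ)), T0Space (Option (I ⊕ ℕ)) ∧
      OmegaNarrow (Option (I ⊕ ℕ)) ∧
      ∃ t : GroupTopology (FreeGroup (Option (I ⊕ ℕ))),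
        IsFreeTopology (Option (I ⊕ ℕ)) t ∧
        ¬ TukeyLE (NbhdId (Option (I ⊕ ℕ)) t) (ℕ → Entourages (Option (I ⊕ ℕ))) ∧
        ¬ TukeyEquiv (NbhdId (Option (I ⊕ ℕ)) t) (ℕ → Entourages (Option (I ⊕ ℕ))) := by
  let 𝒰 : UniformSpace (Option (I ⊕ ℕ)) := Q177.Tuk.unif I
  have h : ¬ TukeyLE (NbhdId (Option (I ⊕ ℕ)) (Q177.Tuk.freeTopology (Option (I ⊕ ℕ))))
      (ℕ → Entourages (Option (I ⊕ ℕ))) := Q177.Tuk.not_tukeyLE
  exact ⟨𝒰, Q177.Tuk.t0_unif, Q177.Tuk.omegaNarrow_unif,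
    Q177.Tuk.freeTopology (Option (I ⊕ ℕ)),
    ⟨Q177.Tuk.canonicalUC_freeTopology _, fun s hs => Q177.Tuk.freeTopology_le hs⟩,
    h, fun h' => h h'.1⟩

end Pool.Agent.Results.MP_f56686_gt.NotTukey
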